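import Pool.Agent.X13.QS.ToParity

/-!
# MP_0c59fa_nt: `t_o(n)` is even when `8n+9` is not represented by `x² + 2y²`

Proof.  Modulo 2, `T_o(q) ≡ ∑_m (-1)^m q^{2m} (-q²;q²)_m / (1-q^{2m+1})`, and we prove the exact
identity

`∑_m (-1)^m q^{2m} (-q²;q²)_m / (1-q^{2m+1}) = ∑_{n≥0} q^{n²+2n} ∑_{i=0}^{2n+1} q^{i(i+1)/2}`;

the exponents on the right satisfy `8(n²+2n+i(i+1)/2) + 9 = (2i+1)² + 2(2(n+1))²`.  The identity is
the Bailey lemma with `a = q⁴`, base `q²`, which amounts to Lebesgue's identity and the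
telescoping of a terminating sum whose difference is a `q`-Vandermonde sum.
-/

namespace Pool.Agent.Results.MP_0c59fa_nt.ParityOfTo

open PowerSeries Finset

/-- the sum of the first `N` terms `q^{2m} (-q;q)_{2m} / (q;q²)_{m+1}`, `m < N`, of `T_o(q)` -/
noncomputable def partialSum (N : ℕ) : ℤ⟦X⟧ :=
  ∑ m ∈ range N, X ^ (2 * m) * (∏ i ∈ range (2 * m), (1 + X ^ (i + 1)))
    * ∏ i ∈ range (m + 1), invOfUnit (1 - X ^ (2 * i + 1)) 1

/-- `t_o(n)`: the coefficient of `q^n` in `T_o(q)`; the terms with `m > n` do not matter -/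
noncomputable def tO (n : ℕ) : ℤ := coeff n (partialSum (n + 1))

/-- the pairs `(x, z)` of positive integers with `x` odd, `x < 4z`, `x² + 8z² = 8n+9` -/
def pairs (n : ℕ) : Finset (ℕ × ℕ) :=
  (range (8 * n + 10) ×ˢ range (8 * n + 10)).filter
    fun p => p.1 % 2 = 1 ∧ 0 < p.2 ∧ p.1 < 4 * p.2 ∧ p.1 ^ 2 + 8 * p.2 ^ 2 = 8 * n + 9

theorem inv_eq (d : ℕ) (hd : 0 < d) : (invOfUnit (1 - X ^ d) 1 : ℤ⟦X⟧) = X13.TT.geo d := by
  have h1 : (1 - X ^ d) * (invOfUnit (1 - X ^ d) 1 : ℤ⟦X⟧) = 1 := by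
    apply PowerSeries.mul_invOfUnit
    rw [map_sub, map_one, map_pow, constantCoeff_X, zero_pow (by omega), sub_zero]
    rfl
  have h2 := X13.TT.one_sub_mul_geo hd
  linear_combination X13.TT.geo d * h1 - (invOfUnit (1 - X ^ d) 1 : ℤ⟦X⟧) * h2

theorem stable (n N : ℕ) (h : n + 1 ≤ N) : coeff n (partialSum N) = tO n := by
  induction N, h using Nat.le_induction with
  | base => rfl
  | succ N hN ih =>
    have e : partialSum (N + 1) = partialSum N + X ^ (2 * N)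
        * ((∏ i ∈ range (2 * N), (1 + X ^ (i + 1)))
          * ∏ i ∈ range (N + 1), invOfUnit (1 - X ^ (2 * i + 1)) 1) := by
      unfold partialSum
      rw [sum_range_succ, mul_assoc]
    rw [e, map_add, coeff_X_pow_mul', if_neg (by omega), add_zero, ih]

theorem prod_two (m : ℕ) : ∏ i ∈ range (2 * m), (1 + (X : ℤ⟦X⟧) ^ (i + 1))
    = (∏ i ∈ range m, (1 + X ^ (2 * i + 1))) * ∏ i ∈ range m, (1 + X ^ (2 * (i + 1))) := by
  induction m with
  | zero => simp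
  | succ m ih =>
    rw [show 2 * (m + 1) = 2 * m + 1 + 1 by ring, prod_range_succ, prod_range_succ, ih,
      prod_range_succ, prod_range_succ]
    ring

theorem prod_odd (m : ℕ) : ∃ G : ℤ⟦X⟧, (∏ i ∈ range m, (1 + (X : ℤ⟦X⟧) ^ (2 * i + 1)))
    * ∏ i ∈ range m, X13.TT.geo (2 * i + 1) = 1 + 2 * G := by
  rw [← prod_mul_distrib]
  induction m with
  | zero => exact ⟨0, by simp⟩
  | succ m ih =>
    obtain ⟨G, hG⟩ := ih
    rw [prod_range_succ, hG]
    have h := X13.TT.one_sub_mul_geo (d := 2 * m + 1) (by omega)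
    refine ⟨G + (1 + 2 * G) * (X ^ (2 * m + 1) * X13.TT.geo (2 * m + 1)), ?_⟩
    linear_combination (1 + 2 * G) * h

theorem mod_two (N : ℕ) : ∃ G : ℤ⟦X⟧, partialSum N = X13.QS.Ls N + 2 * G := by
  induction N with
  | zero => exact ⟨0, by simp [partialSum, X13.QS.Ls]⟩
  | succ N ih =>
    obtain ⟨G, hG⟩ := ih
    obtain ⟨H, hH⟩ := prod_odd N
    have e1 : partialSum (N + 1) = partialSum N + X ^ (2 * N)
        * (∏ i ∈ range (2 * N), (1 + X ^ (i + 1)))
          * ∏ i ∈ range (N + 1), invOfUnit (1 - X ^ (2 * i + 1)) 1 := by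
      unfold partialSum
      rw [sum_range_succ]
    have e2 : (∏ i ∈ range (N + 1), invOfUnit (1 - X ^ (2 * i + 1)) 1 : ℤ⟦X⟧)
        = (∏ i ∈ range N, X13.TT.geo (2 * i + 1)) * X13.TT.geo (2 * N + 1) := by
      rw [prod_range_succ]
      congr 1
      · exact prod_congr rfl fun i _ => inv_eq _ (by omega)
      · exact inv_eq _ (by omega)
    have e3 : X13.QS.Ls (N + 1) = X13.QS.Ls N + (-1) ^ N * X ^ (2 * N)
        * (∏ i ∈ range N, (1 + X ^ (2 * (i + 1)))) * X13.TT.geo (2 * N + 1) := by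
      unfold X13.QS.Ls
      rw [sum_range_succ]
    obtain ⟨s, hs⟩ : ∃ s : ℤ⟦X⟧, (-1 : ℤ⟦X⟧) ^ N = 1 + 2 * s := by
      rcases Nat.even_or_odd N with h | h
      · exact ⟨0, by rw [h.neg_one_pow]; ring⟩
      · exact ⟨-1, by rw [h.neg_one_pow]; ring⟩
    refine ⟨G + X ^ (2 * N) * (∏ i ∈ range N, (1 + X ^ (2 * (i + 1)))) * X13.TT.geo (2 * N + 1)
      * (H - s), ?_⟩
    rw [e1, e2, e3, hG, prod_two, hs]
    linear_combination (X ^ (2 * N) * (∏ i ∈ range N, (1 + X ^ (2 * (i + 1))))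
      * X13.TT.geo (2 * N + 1)) * hH

theorem coeff_Cn (n : ℕ) : coeff n (X13.QS.Cn (n + 1)) = ((pairs n).card : ℤ) := by
  have h1 : X13.QS.Cn (n + 1) = ∑ a ∈ range (n + 1), ∑ i ∈ range (2 * a + 2),
      (X : ℤ⟦X⟧) ^ (2 * a + a ^ 2 + i * (i + 1) / 2) := by
    unfold X13.QS.Cn
    refine sum_congr rfl fun a _ => ?_
    rw [X13.QS.B_eq]
    unfold X13.QS.Tr
    rw [mul_sum, mul_sum]
    refine sum_congr rfl fun i _ => ?_
    rw [pow_add, pow_add]; ring
  rw [h1, sum_sigma', map_sum]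
  simp only [coeff_X_pow]
  rw [sum_boole]
  congr 1
  refine card_bij' (fun x _ => (2 * x.2 + 1, x.1 + 1)) (fun p _ => ⟨p.2 - 1, (p.1 - 1) / 2⟩)
    ?_ ?_ ?_ ?_
  · rintro ⟨a, i⟩ hx
    simp only [mem_filter, mem_sigma, mem_range] at hx
    obtain ⟨⟨ha, hi⟩, he⟩ := hx
    obtain ⟨t, ht⟩ : ∃ t, i * (i + 1) = 2 * t := (Nat.even_mul_succ_self i).two_dvd
    rw [ht, Nat.mul_div_cancel_left t (by norm_num)] at he
    unfold pairs
    simp only [mem_filter, mem_product, mem_range]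
    have h2 : (2 * i + 1) ^ 2 + 8 * (a + 1) ^ 2 = 8 * n + 9 := by
      have : (2 * i + 1) ^ 2 + 8 * (a + 1) ^ 2 = 4 * (i * (i + 1)) + 8 * (2 * a + a ^ 2) + 9 := by
        ring
      rw [this, ht]; omega
    refine ⟨⟨?_, ?_⟩, by omega, by omega, by omega, h2⟩
    · nlinarith
    · nlinarith
  · rintro ⟨x, z⟩ hx
    unfold pairs at hx
    simp only [mem_filter, mem_product, mem_range] at hx
    obtain ⟨-, ho, hz, hlt, he⟩ := hx
    obtain ⟨i, rfl⟩ : ∃ i, x = 2 * i + 1 := ⟨x / 2, by omega⟩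
    obtain ⟨a, rfl⟩ : ∃ a, z = a + 1 := ⟨z - 1, by omega⟩
    obtain ⟨t, ht⟩ : ∃ t, i * (i + 1) = 2 * t := (Nat.even_mul_succ_self i).two_dvd
    have h3 : 2 * a + a ^ 2 + t = n := by
      have : (2 * i + 1) ^ 2 + 8 * (a + 1) ^ 2 = 4 * (i * (i + 1)) + 8 * (2 * a + a ^ 2) + 9 := by
        ring
      rw [this, ht] at he; omega
    simp only [mem_filter, mem_sigma, mem_range]
    have h4 : (2 * i + 1 - 1) / 2 = i := by omega
    rw [Nat.add_sub_cancel, h4, ht, Nat.mul_div_cancel_left t (by norm_num)]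
    exact ⟨⟨by omega, by omega⟩, h3.symm⟩
  · rintro ⟨a, i⟩ _
    simp only [Nat.add_sub_cancel, Sigma.mk.injEq, heq_eq_eq, true_and]
    omega
  · rintro ⟨x, z⟩ hx
    unfold pairs at hx
    simp only [mem_filter, mem_product, mem_range] at hx
    simp only [Prod.mk.injEq]
    omega

theorem parity (n : ℕ) : tO n ≡ ((pairs n).card : ℤ) [ZMOD 2] := by
  obtain ⟨G, hG⟩ := mod_two (n + 1)
  have h1 : coeff n (X13.QS.Ls (n + 1)) = coeff n (X13.QS.Cn (n + 1)) := by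
    have := (X_pow_dvd_iff.mp (X13.QS.cone (n + 1))) n (Nat.lt_succ_self n)
    rw [map_sub] at this
    linarith
  have h2 : (2 : ℤ⟦X⟧) = C (2 : ℤ) := (map_ofNat C 2).symm
  unfold tO
  rw [hG, map_add, h1, coeff_Cn, h2, coeff_C_mul]
  exact (Int.modEq_iff_dvd.mpr ⟨-coeff n G, by ring⟩)

theorem result :
    -- further terms of the series do not change the coefficient
    (∀ n N : ℕ, n + 1 ≤ N → coeff n (partialSum N) = tO n) ∧
    -- Q1 is true
    (∀ n : ℕ, (¬ ∃ x y : ℤ, x ^ 2 + 2 * y ^ 2 = 8 * n + 9) → (2 : ℤ) ∣ tO n) ∧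
    -- the parity of all coefficients
    (∀ n : ℕ, tO n ≡ ((pairs n).card : ℤ) [ZMOD 2]) := by
  refine ⟨stable, ?_, parity⟩
  intro n hn
  have h0 : (pairs n) = ∅ := by
    rw [Finset.eq_empty_iff_forall_notMem]
    rintro ⟨x, z⟩ hx
    unfold pairs at hx
    simp only [mem_filter, mem_product, mem_range] at hx
    obtain ⟨-, -, -, -, he⟩ := hx
    refine hn ⟨x, 2 * z, ?_⟩
    have : ((x ^ 2 + 8 * z ^ 2 : ℕ) : ℤ) = ((8 * n + 9 : ℕ) : ℤ) := by rw [he]
    push_cast at this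
    linarith
  have := parity n
  rw [h0, card_empty] at this
  exact (Int.modEq_zero_iff_dvd).mp this

end Pool.Agent.Results.MP_0c59fa_nt.ParityOfTo
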